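import Pool.Agent.helper60.DB.SpecF

/-! Row bf:BG: the primes `2a² + 3b²`. -/

set_option autoImplicit false

namespace Pool.Agent.helper60.DB

open Polynomial Finset Pool.Agent.helper60.DK

lemma BG_nd (p : ℕ) (hp : p.Prime) (h5 : 5 ≤ p) (i j : ℕ) : ¬ (p : ℤ) ∣ 2 ^ i * 3 ^ j := by
  intro h
  have hpp : Prime (p : ℤ) := Nat.prime_iff_prime_int.1 hp
  rcases hpp.dvd_or_dvd h with h1 | h1
  · have h2 := Int.le_of_dvd (by norm_num) (hpp.dvd_of_dvd_pow h1)
    omega
  · have h2 := Int.le_of_dvd (by norm_num) (hpp.dvd_of_dvd_pow h1)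
    omega

theorem BG (h1 : IZ_stmt) (h2 : TW_stmt) (h3 : BE_stmt) : BG_stmt := by
  intro R k _ _ _ _ p m hpF hpC q hq hp hpm s t a b y w hs ht hsp hy hw hpab hq0
  obtain ⟨b1, b2, b3, b4, b5, b6, b7⟩ := h3 R s t y hs ht hy
  have hz := (h1 R k p q hq).1
  have c6 : ((6 : ℤ) : R) = 6 := Int.cast_ofNat 6
  have n6 : ¬ (p : ℤ) ∣ 6 := by
    have := BG_nd p hpF.out hp 1 1
    norm_num at this
    exact this
  have n576 : q 576 ≠ 0 := by
    have h := BG_nd p hpF.out hp 6 2
    have h' : ¬ (p : ℤ) ∣ 576 := by norm_num at h; exact h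
    have h'' := mt (hz 576).1 h'
    rwa [Int.cast_ofNat] at h''
  have n144 : q 144 ≠ 0 := by
    have h := BG_nd p hpF.out hp 4 2
    have h' : ¬ (p : ℤ) ∣ 144 := by norm_num at h; exact h
    have h'' := mt (hz 144).1 h'
    rwa [Int.cast_ofNat] at h''
  have e1 : ((12 * (1 + s)) ^ 2 - 4 * 6) * ((12 * (1 - s)) ^ 2 - 4 * 6) = 576 := by
    linear_combination (20736 * s ^ 2 - 6912) * hs
  have e2 : (12 * (1 + s)) * (12 * (1 - s)) = (-144 : R) := by
    linear_combination (-144) * hs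
  have u1 : q ((12 * (1 + s)) ^ 2 - 4 * 6) ≠ 0 ∧ q ((12 * (1 - s)) ^ 2 - 4 * 6) ≠ 0 := by
    have h := congrArg q e1
    rw [map_mul] at h
    rw [← h] at n576
    exact ⟨left_ne_zero_of_mul n576, right_ne_zero_of_mul n576⟩
  have u2 : q (12 * (1 - s)) ≠ 0 := by
    have h := congrArg q e2
    rw [map_mul, map_neg] at h
    have h' : -q 144 ≠ 0 := neg_ne_zero.2 n144
    rw [← h] at h'
    exact right_ne_zero_of_mul h'
  have hA : q (12 * (1 + s)) ^ p = ((1 : ℤ) : k) * q (12 * (1 - s)) := by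
    have h4 : frobenius k p (q (12 * (1 + s))) = q (12 * (1 - s)) := by
      rw [map_mul q, map_mul (frobenius k p), map_add q, map_add (frobenius k p), map_mul q,
        map_sub q, map_one q, map_one (frobenius k p), map_ofNat q 12,
        map_ofNat (frobenius k p) 12, frobenius_def, hsp, sub_eq_add_neg]
    rw [Int.cast_one, one_mul, ← h4, frobenius_def]
  have hodd : Odd (0 * a + 1 * b) := by
    rw [zero_mul, zero_add, one_mul]
    by_contra hb
    rw [Int.not_odd_iff_even] at hb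
    obtain ⟨c, hc⟩ := hb
    rw [hc] at hpab
    have h5 : (p : ℤ) = 2 * (m : ℤ) + 1 := by rw [hpm]; push_cast; ring
    rw [h5] at hpab
    have h6 : (2 : ℤ) * (a ^ 2 + 6 * c ^ 2 - m) = 1 := by linear_combination -hpab
    omega
  have hpR : (p : R) = 2 * (a : R) ^ 2 + 3 * (b : R) ^ 2 := by
    have h7 := congrArg (fun x : ℤ => (x : R)) hpab
    push_cast at h7
    exact h7
  obtain ⟨z, hzz⟩ := h2 R k p m q hq hp hpm (12 * (1 + s)) (12 * (1 - s)) (s * t) (2 + s)
    (t * (1 + s)) (2 - s) ((s - 1) * (s * a - t * b)) 6 1 2 3 0 1 0 0 1 1 a b y w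
    (by rw [c6]; exact hy) hw n6 (by rw [c6]; exact u1.1) (by rw [c6]; exact u1.2)
    (by norm_num) (by norm_num)
    (by push_cast; linear_combination t ^ 2 * hs + 2 * ht)
    (by rw [c6]; exact b1) (by rw [c6]; exact b2) (by rw [c6]; exact b3) (by rw [c6]; exact b4)
    (by norm_num) (by norm_num)
    (by push_cast; linear_combination -hs)
    (by push_cast; linear_combination (-t) * hs)
    (by rw [c6]; exact b6) (by rw [c6]; exact b7)
    (by rw [hpab]; push_cast; ring) hodd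
    (by
      rw [hpR]
      linear_combination ((a : R) ^ 2 * (s ^ 2 + 1) - (b : R) ^ 2 * t ^ 2
        - a * (s - 1) * (s * a - t * b)) * hs + (-(b : R) ^ 2) * ht)
    (by
      have h8 : (a : R) * (2 + s) + b * (t * (1 + s)) = (1 + s) * (s * a + t * b) := by
        linear_combination (-(a : R)) * hs
      rw [h8, map_mul, hq0, mul_zero])
    (by norm_num) hA u2
  refine ⟨z, ?_⟩
  rw [hzz, c6, Int.cast_one, one_mul]

end Pool.Agent.helper60.DB
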