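import Pool.Agent.helper60.DB.SpecF

/-! Row bf:NE: the isogenies for `x = -1/16`. -/

set_option autoImplicit false

namespace Pool.Agent.helper60.DB

open Polynomial Finset Pool.Agent.helper60.DK

theorem NE (h1 : M1_stmt) (hMO : MO_stmt) (hMM : MM_stmt) (hOO : OO_stmt) (hOC : OC_stmt)
    (hND : ND_stmt) : NE_stmt := by
  intro R _ _ _ f v y hf hv hy
  have hK0 : CharZero (FractionRing R) :=
    charZero_of_injective_algebraMap (IsFractionRing.injective R (FractionRing R))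
  set φ := algebraMap R (FractionRing R) with hφ
  have hf' : (φ f) ^ 2 = φ f + 1 := by rw [← map_pow, hf, map_add, map_one]
  have hv' : (φ v) ^ 2 = -3 := by rw [← map_pow, hv, map_neg, map_ofNat]
  have hy' : Yy (φ (12 - 3 * f)) (φ 48) (PowerSeries.map φ y) :=
    (hMM R (FractionRing R) φ (12 - 3 * f) 48 1 y 1 1).2 hy
  have eA : φ (12 - 3 * f) = 12 - 3 * φ f := by
    rw [map_sub, map_mul, map_ofNat, map_ofNat]
  have eA' : φ (-(9 + 3 * f)) = -(9 + 3 * φ f) := by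
    rw [map_neg, map_add, map_mul, map_ofNat, map_ofNat]
  have eB : φ 48 = 48 := map_ofNat φ 48
  obtain ⟨n1, n2, n3, n4⟩ := hND (FractionRing R) (φ f) (φ v) hf' hv'
  obtain ⟨r1, r2, r3, r4⟩ := hND R f v hf hv
  have k1 : Op (PowerSeries.map φ y) (12 - 3 * φ f) 48 (-(9 + 3 * φ f)) 48 (φ v * φ f)
      (2 * 1 + 1) 1 :=
    hOO (FractionRing R) _ _ _ _ _ _ _ _ _ _ _ 1 hy' n1 (by compute_degree) (by compute_degree)
  have k2 : Op (PowerSeries.map φ y) (12 - 3 * φ f) 48 (-(9 + 3 * φ f)) 48 (2 + φ f)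
      (2 * 2 + 1) 1 :=
    hOO (FractionRing R) _ _ _ _ _ _ _ _ _ _ _ 2 hy' n2 (by compute_degree) (by compute_degree)
  have k3 : Op (PowerSeries.map φ y) (-(9 + 3 * φ f)) 48 (12 - 3 * φ f) 48 (φ v * (1 - φ f))
      (2 * 1 + 1) 1 :=
    hOO (FractionRing R) _ _ _ _ _ _ _ _ _ _ _ 1 hy' n3 (by compute_degree) (by compute_degree)
  have k4 : Op (PowerSeries.map φ y) (-(9 + 3 * φ f)) 48 (12 - 3 * φ f) 48 (3 - φ f)
      (2 * 2 + 1) 1 :=
    hOO (FractionRing R) _ _ _ _ _ _ _ _ _ _ _ 2 hy' n4 (by compute_degree) (by compute_degree)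
  have k5 := hOC (FractionRing R) _ _ _ _ _ _ _ _ _ _ _ _ _ k1 k4
  have m0 := (h1 R (12 - 3 * f) 48 1 y 1 y).1 hy
  obtain ⟨g1, u1, m1, _, _⟩ := hMO R _ _ _ _ _ _ _ _ _ y _ _ r1 m0
  obtain ⟨g2, u2, m2, _, _⟩ := hMO R _ _ _ _ _ _ _ _ _ y _ _ r2 m0
  obtain ⟨g5, u5, m5, _, _⟩ := hMO R _ _ _ _ _ _ _ _ _ y _ _ r4 m1
  have hc : (3 - f) * (v * f) = (2 * f - 1) * v := by linear_combination (-v) * hf
  refine ⟨?_, ?_, ?_, ?_, ?_, ?_, ?_⟩
  · unfold KOp
    rw [← hφ, eA, eB]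
    have e : φ ((2 * f - 1) * v) = (3 - φ f) * (φ v * φ f) := by
      rw [← hc, map_mul, map_mul, map_sub, map_ofNat]
    rw [e]
    exact k5
  · unfold KOp
    rw [← hφ, eA, eB, eA', map_mul]
    exact k1
  · unfold KOp
    rw [← hφ, eA, eB, eA', map_add, map_ofNat]
    exact k2
  · unfold KOp
    rw [← hφ, eA, eB, eA', map_mul, map_sub, map_one]
    exact k3
  · refine ⟨g5, u5, ?_⟩
    rw [mul_one, hc] at m5
    exact m5
  · refine ⟨g1, u1, ?_⟩
    rw [mul_one] at m1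
    exact m1
  · refine ⟨g2, u2, ?_⟩
    rw [mul_one] at m2
    exact m2

end Pool.Agent.helper60.DB
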