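import Pool.Agent.helper60.DB.SpecM

/-! Row bm:TC: the triple of the product of two coprime pairs. -/

set_option autoImplicit false

namespace Pool.Agent.helper60.DB

open Polynomial

lemma TC_top {K : Type} [Field K] (a b : K[X]) (h : IsCoprime a b) :
    a.coeff (max a.natDegree b.natDegree) ≠ 0 ∨ b.coeff (max a.natDegree b.natDegree) ≠ 0 := by
  rcases le_total a.natDegree b.natDegree with hab | hab
  · rw [max_eq_right hab]
    by_cases hb : b = 0
    · left
      subst hb
      rw [natDegree_zero] at hab ⊢
      rw [isCoprime_zero_right] at h
      have h0 : a ≠ 0 := h.ne_zero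
      have h1 : a.natDegree = 0 := Nat.le_zero.1 hab
      have h2 := leadingCoeff_ne_zero.2 h0
      rw [leadingCoeff, h1] at h2
      exact h2
    · right
      exact leadingCoeff_ne_zero.2 hb
  · rw [max_eq_left hab]
    by_cases ha : a = 0
    · right
      subst ha
      rw [natDegree_zero] at hab ⊢
      rw [isCoprime_zero_left] at h
      have h0 : b ≠ 0 := h.ne_zero
      have h1 : b.natDegree = 0 := Nat.le_zero.1 hab
      have h2 := leadingCoeff_ne_zero.2 h0
      rw [leadingCoeff, h1] at h2
      exact h2
    · left
      exact leadingCoeff_ne_zero.2 ha

theorem TC : TC_stmt := by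
  intro K _ a b c d hab hcd
  refine ⟨?_, ?_⟩
  · obtain ⟨r, s, h1⟩ := hab
    obtain ⟨t, x, h2⟩ := hcd
    have hP : (r * a + s * b) * (t * c + x * d) = 1 := by rw [h1, h2, one_mul]
    refine ⟨r * t * (2 - (r * t * (a * c) + s * x * (b * d) + s * t * (a * d + b * c)))
        - (r * x - s * t) ^ 2 * (b * d),
      s * t * (2 - (r * t * (a * c) + s * x * (b * d) + s * t * (a * d + b * c)))
        + (r * x - s * t) ^ 2 * (a * d),
      s * x * (2 - (r * t * (a * c) + s * x * (b * d) + s * t * (a * d + b * c))), ?_⟩
    linear_combination (2 * (1 - (r * t * (a * c) + s * x * (b * d) + s * t * (a * d + b * c)))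
      + ((r * a + s * b) * (t * c + x * d) - 1)) * hP
  · set m := max a.natDegree b.natDegree with hm
    set n := max c.natDegree d.natDegree with hn
    have ha : a.natDegree ≤ m := le_max_left _ _
    have hb : b.natDegree ≤ m := le_max_right _ _
    have hc : c.natDegree ≤ n := le_max_left _ _
    have hd : d.natDegree ≤ n := le_max_right _ _
    apply le_antisymm
    · refine max_le ?_ (max_le ?_ ?_)
      · exact natDegree_mul_le.trans (Nat.add_le_add ha hc)
      · refine (natDegree_add_le _ _).trans (max_le ?_ ?_)
        · exact natDegree_mul_le.trans (Nat.add_le_add ha hd)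
        · exact natDegree_mul_le.trans (Nat.add_le_add hb hc)
      · exact natDegree_mul_le.trans (Nat.add_le_add hb hd)
    · have e1 : (a * c).coeff (m + n) = a.coeff m * c.coeff n :=
        coeff_mul_add_eq_of_natDegree_le ha hc
      have e2 : (a * d + b * c).coeff (m + n) = a.coeff m * d.coeff n + b.coeff m * c.coeff n := by
        rw [coeff_add, coeff_mul_add_eq_of_natDegree_le ha hd, coeff_mul_add_eq_of_natDegree_le hb hc]
      have e3 : (b * d).coeff (m + n) = b.coeff m * d.coeff n :=
        coeff_mul_add_eq_of_natDegree_le hb hd
      have h1 := TC_top a b hab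
      have h2 := TC_top c d hcd
      rw [← hm] at h1
      rw [← hn] at h2
      by_cases f1 : a.coeff m * c.coeff n = 0
      · by_cases f3 : b.coeff m * d.coeff n = 0
        · have f2 : a.coeff m * d.coeff n + b.coeff m * c.coeff n ≠ 0 := by
            intro f2
            rcases mul_eq_zero.1 f1 with g1 | g1
            · have g2 : b.coeff m ≠ 0 := by
                rcases h1 with h | h
                · exact absurd g1 h
                · exact h
              have g3 : d.coeff n = 0 := (mul_eq_zero.1 f3).resolve_left g2
              have g4 : c.coeff n ≠ 0 := by
                rcases h2 with h | h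
                · exact h
                · exact absurd g3 h
              rw [g1, zero_mul, zero_add] at f2
              exact (mul_ne_zero g2 g4) f2
            · have g2 : d.coeff n ≠ 0 := by
                rcases h2 with h | h
                · exact absurd g1 h
                · exact h
              have g3 : b.coeff m = 0 := (mul_eq_zero.1 f3).resolve_right g2
              have g4 : a.coeff m ≠ 0 := by
                rcases h1 with h | h
                · exact h
                · exact absurd g3 h
              rw [g3, zero_mul, add_zero] at f2
              exact (mul_ne_zero g4 g2) f2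
          rw [← e2] at f2
          exact (le_natDegree_of_ne_zero f2).trans ((le_max_left _ _).trans (le_max_right _ _))
        · rw [← e3] at f3
          exact (le_natDegree_of_ne_zero f3).trans ((le_max_right _ _).trans (le_max_right _ _))
      · rw [← e1] at f1
        exact (le_natDegree_of_ne_zero f1).trans (le_max_left _ _)

end Pool.Agent.helper60.DB
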