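import Pool.Agent.helper60.DB.SpecC

/-! Row bc:SF: the quadratic form is squarefree. -/

set_option autoImplicit false

namespace Pool.Agent.helper60.DB

open Polynomial Finset

theorem SF : SF_stmt := by
  intro k _ A B hB hAB
  have e : qf A B = C B * X ^ 2 + C A * X + C 1 := by
    unfold qf
    rw [C_1]
    ring
  have hd : derivative (qf A B) = C A + C 2 * C B * X := by
    rw [e]
    simp only [derivative_add, derivative_mul, derivative_C, derivative_X_pow, derivative_X,
      zero_mul, mul_one, zero_add, Nat.cast_ofNat, pow_one, Nat.add_one_sub_one, add_zero]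
    ring
  refine ⟨?_, ?_⟩
  · have hδ : A ^ 2 - 4 * B ≠ 0 := sub_ne_zero.2 hAB
    have hs : (qf A B).Separable := by
      refine ⟨C (-(4 * B) / (A ^ 2 - 4 * B)), C (1 / (A ^ 2 - 4 * B)) * derivative (qf A B), ?_⟩
      have h1 : (C (A ^ 2 - 4 * B) : k[X]) * C (1 / (A ^ 2 - 4 * B)) = 1 := by
        rw [← C_mul, mul_one_div_cancel hδ, C_1]
      have h2 : (C (-(4 * B) / (A ^ 2 - 4 * B)) : k[X]) = C (-(4 * B)) * C (1 / (A ^ 2 - 4 * B)) := by
        rw [← C_mul, mul_one_div]
      have h3 : derivative (qf A B) * derivative (qf A B) - C (4 * B) * qf A B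
          = C (A ^ 2 - 4 * B) := by
        rw [hd, e]
        simp only [C_mul, C_sub, C_pow, C_1]
        have h4 : (C 4 : k[X]) = 4 := rfl
        have h5 : (C 2 : k[X]) = 2 := rfl
        rw [h4, h5]
        ring
      rw [h2, C_neg]
      linear_combination C (1 / (A ^ 2 - 4 * B)) * h3 + h1
    exact hs.squarefree
  · rw [e]
    exact natDegree_quadratic hB

end Pool.Agent.helper60.DB
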